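import Pool.Agent.H884Z.Ang.R
import Pool.Agent.H744R2.Falc.Defs

set_option autoImplicit false
set_option linter.unusedSectionVars false

namespace Pool.Agent.H884Z.Ang

open MeasureTheory Set Metric Pool.Agent.H884Z.SR

lemma pr_equiv {Ω Ω' : Type} [Fintype Ω] [Fintype Ω'] (e : Ω ≃ Ω') (p : Ω' → Prop) :
    pr (fun ω => p (e ω)) = pr p := by
  unfold pr
  rw [Fintype.card_congr e]
  congr 2
  refine Finset.card_bij (fun ω _ => e ω) ?_ ?_ ?_
  · intro ω hω; exact mem_fs.2 ((mem_fs (p := fun ω => p (e ω))).1 hω)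
  · intro a _ b _ h; exact e.injective h
  · intro b hb
    exact ⟨e.symm b, (mem_fs (p := fun ω => p (e ω))).2 (by simpa using hb), by simp⟩

lemma pr_pi {ι Ω : Type} [Fintype ι] [DecidableEq ι] [Fintype Ω] (p : ι → Ω → Prop) :
    pr (fun g : ι → Ω => ∀ i, p i (g i)) = ∏ i, pr (p i) := by
  unfold pr
  have : (fs fun g : ι → Ω => ∀ i, p i (g i)) = Fintype.piFinset fun i => fs (p i) := by
    ext g; simp
  rw [this, Fintype.card_piFinset, Finset.prod_div_distrib]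
  simp

lemma pr_update {ι Ω : Type} [Fintype ι] [DecidableEq ι] [Fintype Ω] [Nonempty Ω]
    (p : (ι → Ω) → Prop) (i0 : ι) (ε : ℝ)
    (h : ∀ g, pr (fun t => p (Function.update g i0 t)) ≤ ε) : pr p ≤ ε := by
  classical
  have hc : (0 : ℝ) < Fintype.card Ω := by exact_mod_cast Fintype.card_pos
  have hc' : (0 : ℝ) < Fintype.card (ι → Ω) := by exact_mod_cast Fintype.card_pos
  have h1 : (fs p ×ˢ (Finset.univ : Finset Ω)).card =
      ((Finset.univ : Finset (ι → Ω)).sigma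
        fun g => fs fun t => p (Function.update g i0 t)).card := by
    refine Finset.card_bij' (fun a _ => ⟨Function.update a.1 i0 a.2, a.1 i0⟩)
      (fun b _ => (Function.update b.1 i0 b.2, b.1 i0)) ?_ ?_ ?_ ?_
    · rintro ⟨g, t⟩ ha
      simp only [Finset.mem_product, mem_fs] at ha
      simp [ha.1]
    · rintro ⟨g, t⟩ hb
      simp only [Finset.mem_sigma, mem_fs] at hb
      simp [hb.2]
    · rintro ⟨g, t⟩ _; simp
    · rintro ⟨g, t⟩ _; simp
  rw [Finset.card_product, Finset.card_sigma, Finset.card_univ] at h1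
  have h2 : ((fs p).card : ℝ) * Fintype.card Ω =
      ∑ g : ι → Ω, ((fs fun t => p (Function.update g i0 t)).card : ℝ) := by exact_mod_cast h1
  have h3 : ∑ g : ι → Ω, ((fs fun t => p (Function.update g i0 t)).card : ℝ) ≤
      ∑ _g : ι → Ω, ε * Fintype.card Ω := by
    refine Finset.sum_le_sum fun g _ => ?_
    have := h g
    unfold pr at this
    rwa [div_le_iff₀ hc] at this
  rw [Finset.sum_const, Finset.card_univ, nsmul_eq_mul, ← h2] at h3
  unfold pr
  rw [div_le_iff₀ hc']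
  have : ((fs p).card : ℝ) * Fintype.card Ω ≤ (ε * Fintype.card (ι → Ω)) * Fintype.card Ω := by
    linarith
  exact le_of_mul_le_mul_right this hc

lemma pr_line (m : ℕ) (hm : 0 < m) (b u w : ℝ) (hu : u ≠ 0) (hw : 0 ≤ w) :
    pr (fun t : Fin m => |b - ((t : ℕ) : ℝ) / m * u| ≤ w) ≤ 2 * w / |u| + 1 / m := by
  have hm' : (0 : ℝ) < m := by exact_mod_cast hm
  have hu' : 0 < |u| := abs_pos.2 hu
  unfold pr
  rw [Fintype.card_fin, div_le_iff₀ hm']
  set A := fs fun t : Fin m => |b - ((t : ℕ) : ℝ) / m * u| ≤ w with hA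
  rcases A.eq_empty_or_nonempty with h0 | hne
  · rw [h0]; simp; positivity
  obtain ⟨t0, ht0, hmin⟩ := Finset.exists_min_image A (fun t => (t : ℕ)) hne
  set N := ⌊2 * w / |u| * m⌋₊ with hN
  have h1 : A.card ≤ (Finset.Icc (t0 : ℕ) (t0 + N)).card := by
    refine Finset.card_le_card_of_injOn (fun t => (t : ℕ)) ?_ (fun a _ b _ h => Fin.ext h)
    intro t ht
    have ht' : t ∈ A := ht
    have h2 := hmin t ht'
    have h3 : |b - ((t : ℕ) : ℝ) / m * u| ≤ w := by simpa [hA] using ht'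
    have h4 : |b - ((t0 : ℕ) : ℝ) / m * u| ≤ w := by simpa [hA] using ht0
    simp only [Finset.coe_Icc, mem_Icc]
    refine ⟨h2, ?_⟩
    have h5 : ((t : ℕ) - (t0 : ℕ) : ℕ) ≤ N := by
      refine Nat.le_floor ?_
      rw [Nat.cast_sub h2]
      have h6 : |(((t : ℕ) : ℝ) - (t0 : ℕ)) / m * u| ≤ 2 * w := by
        have : (((t : ℕ) : ℝ) - (t0 : ℕ)) / m * u =
            (b - ((t0 : ℕ) : ℝ) / m * u) - (b - ((t : ℕ) : ℝ) / m * u) := by ring
        rw [this]
        exact (abs_sub _ _).trans (by linarith)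
      rw [abs_mul, abs_div, abs_of_pos hm'] at h6
      have h7 := le_abs_self (((t : ℕ) : ℝ) - (t0 : ℕ))
      refine h7.trans ?_
      rw [div_mul_eq_mul_div, le_div_iff₀ hu']
      rw [div_mul_eq_mul_div, div_le_iff₀ hm'] at h6
      exact h6
    omega
  rw [Nat.card_Icc] at h1
  have h2 : (A.card : ℝ) ≤ N + 1 := by
    have : A.card ≤ N + 1 := by omega
    exact_mod_cast this
  have h3 : (N : ℝ) ≤ 2 * w / |u| * m := Nat.floor_le (by positivity)
  rw [add_mul, one_div, inv_mul_cancel₀ hm'.ne']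
  linarith

section Proj

variable {n m : ℕ}

/-- the random projection -/
noncomputable def pj (σ : ℝ) (S : Finset (Fin n)) (A : Fin n → Fin n → Fin m) (j : Fin n)
    (v : EuclideanSpace ℝ (Fin n)) : ℝ :=
  v j - ∑ i ∈ S, ((A j i : ℕ) : ℝ) / m * (σ * v i)

lemma pj_cont (σ : ℝ) (S : Finset (Fin n)) (A : Fin n → Fin n → Fin m) (j : Fin n) :
    Continuous (pj σ S A j) := by
  unfold pj; fun_prop

lemma pj_sub (σ : ℝ) (S : Finset (Fin n)) (A : Fin n → Fin n → Fin m) (j : Fin n)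
    (x y : EuclideanSpace ℝ (Fin n)) : pj σ S A j (x - y) = pj σ S A j x - pj σ S A j y := by
  unfold pj
  simp only [PiLp.sub_apply, mul_sub, Finset.sum_sub_distrib]
  ring

lemma coef_le (t : Fin m) : |((t : ℕ) : ℝ) / m| ≤ 1 := by
  have hm : (0 : ℝ) < m := by exact_mod_cast t.pos
  rw [abs_of_nonneg (by positivity), div_le_one hm]
  exact_mod_cast t.2.le

lemma sum_coef_le {σ : ℝ} (hσ : |σ| = 1) (S : Finset (Fin n)) (a : Fin n → Fin m)
    (v : EuclideanSpace ℝ (Fin n)) (M : ℝ) (hM0 : 0 ≤ M) (hM : ∀ i ∈ S, |v i| ≤ M) :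
    |∑ i ∈ S, ((a i : ℕ) : ℝ) / m * (σ * v i)| ≤ n * M := by
  refine (Finset.abs_sum_le_sum_abs _ _).trans ?_
  have h1 : ∑ i ∈ S, |((a i : ℕ) : ℝ) / m * (σ * v i)| ≤ ∑ _i ∈ S, M := by
    refine Finset.sum_le_sum fun i hi => ?_
    rw [abs_mul, abs_mul, hσ, one_mul]
    calc _ ≤ 1 * M := mul_le_mul (coef_le _) (hM i hi) (abs_nonneg _) zero_le_one
      _ = M := one_mul _
  refine h1.trans ?_
  rw [Finset.sum_const, nsmul_eq_mul]
  refine mul_le_mul_of_nonneg_right ?_ hM0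
  have := Finset.card_le_univ S
  rw [Fintype.card_fin] at this
  exact_mod_cast this

lemma coord_le (v : EuclideanSpace ℝ (Fin n)) (i : Fin n) : |v i| ≤ ‖v‖ := by
  simpa using PiLp.norm_apply_le v i

lemma norm_le_sum (v : EuclideanSpace ℝ (Fin n)) : ‖v‖ ≤ ∑ i, |v i| := by
  rw [EuclideanSpace.norm_eq]
  refine Real.sqrt_le_iff.2 ⟨Finset.sum_nonneg fun _ _ => abs_nonneg _, ?_⟩
  simp only [Real.norm_eq_abs]
  exact Finset.sum_sq_le_sq_sum_of_nonneg fun _ _ => abs_nonneg _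

lemma pj_bound {σ : ℝ} (hσ : |σ| = 1) (S : Finset (Fin n)) (A : Fin n → Fin n → Fin m) (j : Fin n)
    (v : EuclideanSpace ℝ (Fin n)) : |pj σ S A j v| ≤ (n + 1) * ‖v‖ := by
  unfold pj
  have h1 := sum_coef_le hσ S (A j) v ‖v‖ (norm_nonneg _) fun i _ => coord_le v i
  have h2 := coord_le v j
  refine (abs_sub _ _).trans ?_
  linarith

lemma small_ball {σ : ℝ} (hσ : |σ| = 1) (S : Finset (Fin n)) (hS : S.Nonempty) (hm : 0 < m)
    (w : ℝ) (hw : 0 < w) (hmw : 1 / (m : ℝ) ≤ w) (ρ : ℝ) (hρ : 0 < ρ) (hρ1 : ρ ≤ 1)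
    (v : EuclideanSpace ℝ (Fin n)) (hv : ρ ≤ ‖v‖) :
    pr (fun A : Fin n → Fin n → Fin m => ∀ j ∈ Sᶜ, |pj σ S A j v| ≤ w) ≤
      ((4 * n * (n + 1) + 1) * w / ρ) ^ (Sᶜ).card := by
  have : Nonempty (Fin m) := ⟨⟨0, hm⟩⟩
  obtain ⟨i0, hi0, hmax⟩ := Finset.exists_max_image S (fun i => |v i|) hS
  have hn1 : (1 : ℝ) ≤ n := by exact_mod_cast i0.pos
  set M := |v i0| with hM
  have hM0 : 0 ≤ M := abs_nonneg _
  by_cases hcase : ρ ≤ 2 * n * (n + 1) * M
  · have hMpos : 0 < M := by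
      by_contra hc
      have : M = 0 := le_antisymm (not_lt.1 hc) hM0
      rw [this] at hcase; linarith
    have hv0 : σ * v i0 ≠ 0 := by
      rw [← abs_pos, abs_mul, hσ, one_mul]; exact hMpos
    let p : Fin n → (Fin n → Fin m) → Prop := fun j a =>
      j ∈ Sᶜ → |v j - ∑ i ∈ S, ((a i : ℕ) : ℝ) / m * (σ * v i)| ≤ w
    have h1 := pr_pi p
    have h2 : ∀ j ∈ Sᶜ, pr (p j) ≤ (4 * n * (n + 1) + 1) * w / ρ := by
      intro j hj
      refine pr_update _ i0 _ fun g => ?_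
      have h3 := pr_line m hm (v j - ∑ i ∈ S.erase i0, ((g i : ℕ) : ℝ) / m * (σ * v i))
        (σ * v i0) w hv0 hw.le
      refine le_trans (pr_mono fun t ht => ?_) (h3.trans ?_)
      · have h4 := ht hj
        rw [← Finset.add_sum_erase S _ hi0, Function.update_self] at h4
        have h5 : ∑ i ∈ S.erase i0, ((Function.update g i0 t i : ℕ) : ℝ) / m * (σ * v i) =
            ∑ i ∈ S.erase i0, ((g i : ℕ) : ℝ) / m * (σ * v i) :=
          Finset.sum_congr rfl fun i hi => by rw [Function.update_of_ne (Finset.ne_of_mem_erase hi)]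
        rw [h5] at h4
        convert h4 using 2; ring
      · rw [abs_mul, hσ, one_mul, ← hM, add_mul, add_div]
        refine add_le_add ?_ (hmw.trans ?_)
        · rw [div_le_div_iff₀ hMpos hρ]
          nlinarith
        · rw [one_mul, le_div_iff₀ hρ]; nlinarith
    have h3 : ∏ j, pr (p j) ≤ ∏ j, (if j ∈ Sᶜ then (4 * n * (n + 1) + 1) * w / ρ else 1) := by
      refine Finset.prod_le_prod (fun _ _ => pr_nonneg _) fun j _ => ?_
      split_ifs with hj
      · exact h2 j hj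
      · exact pr_le_one _
    rw [Finset.prod_ite, Finset.prod_const, Finset.prod_const, one_pow, mul_one] at h3
    have h4 : (Finset.univ.filter fun j => j ∈ Sᶜ) = Sᶜ := by ext; simp
    rw [h4, ← h1] at h3
    exact h3
  · by_cases hex : ∃ A : Fin n → Fin n → Fin m, ∀ j ∈ Sᶜ, |pj σ S A j v| ≤ w
    · obtain ⟨A, hA⟩ := hex
      have h1 : ∀ j, |v j| ≤ w + (n + 1) * M := by
        intro j
        by_cases hj : j ∈ S
        · have := hmax j hj
          nlinarith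
        · have h2 := hA j (Finset.mem_compl.2 hj)
          have h3 := sum_coef_le hσ S (A j) v M hM0 hmax
          unfold pj at h2
          have h4 := abs_add_le (v j - ∑ i ∈ S, ((A j i : ℕ) : ℝ) / m * (σ * v i))
            (∑ i ∈ S, ((A j i : ℕ) : ℝ) / m * (σ * v i))
          rw [sub_add_cancel] at h4
          linarith
      have h2 : ‖v‖ ≤ n * (w + (n + 1) * M) := by
        refine (norm_le_sum v).trans ((Finset.sum_le_sum fun j _ => h1 j).trans ?_)
        rw [Finset.sum_const, Finset.card_univ, Fintype.card_fin, nsmul_eq_mul]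
      refine (pr_le_one _).trans (one_le_pow₀ ?_)
      rw [le_div_iff₀ hρ]
      have h3 := not_le.1 hcase
      nlinarith
    · push Not at hex
      rw [pr_false _ fun A hA => by
        obtain ⟨j, hj, h⟩ := hex A
        exact absurd (hA j hj) (not_le.2 h)]
      positivity

lemma inner_identity (S : Finset (Fin n)) (A : Fin n → Fin n → Fin m)
    (X Z : EuclideanSpace ℝ (Fin n)) :
    inner ℝ X Z = ∑ i ∈ S, X i * pj (-1) Sᶜ (Function.swap A) i Z +
      ∑ j ∈ Sᶜ, Z j * pj 1 S A j X := by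
  have h1 : inner ℝ X Z = ∑ i ∈ S, X i * Z i + ∑ j ∈ Sᶜ, Z j * X j := by
    rw [PiLp.inner_apply, ← Finset.sum_add_sum_compl S]
    simp only [RCLike.inner_apply, conj_trivial]
    congr 1
    exact Finset.sum_congr rfl fun i _ => mul_comm _ _
  rw [h1]
  unfold pj
  simp only [mul_sub, Finset.sum_sub_distrib, Finset.mul_sum, Function.swap]
  rw [Finset.sum_comm (s := Sᶜ)]
  have : ∑ i ∈ S, ∑ j ∈ Sᶜ, X i * (((A j i : ℕ) : ℝ) / m * (-1 * Z j)) =
      -∑ i ∈ S, ∑ j ∈ Sᶜ, Z j * (((A j i : ℕ) : ℝ) / m * (1 * X i)) := by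
    rw [← Finset.sum_neg_distrib]
    refine Finset.sum_congr rfl fun i _ => ?_
    rw [← Finset.sum_neg_distrib]
    exact Finset.sum_congr rfl fun j _ => by ring
  rw [this]; ring

end Proj

theorem right_angle (n : ℕ) (hn : 2 ≤ n) (K : Set (EuclideanSpace ℝ (Fin n))) (hK : IsCompact K)
    (s : ℝ) (hs : 3 * (n:ℝ) / 4 ≤ s) (hF : Pool.Agent.H744R2.Falc.Fro K s) :
    ∃ x ∈ K, ∃ y ∈ K, ∃ z ∈ K, x ≠ y ∧ z ≠ y ∧ inner ℝ (x - y) (z - y) = 0 := by
  classical
  obtain ⟨μ, hμ, hμK, C, hC, hFr⟩ := hF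
  obtain ⟨S, -, hS⟩ := Finset.exists_subset_card_eq (s := (Finset.univ : Finset (Fin n)))
    (n := n / 2) (by simp; omega)
  have hSc : (Sᶜ).card = n - n / 2 := by rw [Finset.card_compl, hS]; simp
  have hScc : (Sᶜᶜ).card = n / 2 := by rw [compl_compl, hS]
  have hd1 : (((Sᶜ).card : ℕ) : ℝ) < s := by
    have : 4 * (Sᶜ).card < 3 * n := by omega
    have : (4 : ℝ) * (Sᶜ).card < 3 * n := by exact_mod_cast this
    linarith
  have hd2 : (((Sᶜᶜ).card : ℕ) : ℝ) < s := by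
    have : 4 * (Sᶜᶜ).card < 3 * n := by omega
    have : (4 : ℝ) * (Sᶜᶜ).card < 3 * n := by exact_mod_cast this
    linarith
  obtain ⟨R, hR0, hR⟩ : ∃ R : ℝ, 0 < R ∧ ∀ x ∈ K, ‖x‖ ≤ R := hK.isBounded.exists_pos_norm_le
  obtain ⟨k1, hk1⟩ := lemmaR μ C s hC hFr _ hd1 ((n + 1) * R) (4 * n * (n + 1) + 1) (1 / 10)
    (by positivity) (by positivity) (by norm_num)
  obtain ⟨k2, hk2⟩ := lemmaR μ C s hC hFr _ hd2 ((n + 1) * R) (4 * n * (n + 1) + 1) (1 / 10)
    (by positivity) (by positivity) (by norm_num)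
  set k0 := max k1 k2 with hk0
  set r : ℝ := (1 / 2) ^ k0 with hr
  have hr0 : 0 < r := by positivity
  have hμ1 : μ.real K = 1 := by
    have := (prob_compl_eq_zero_iff hK.measurableSet).1 hμK
    simp [Measure.real, this]
  have step : ∀ k ≥ k0, ∃ x ∈ K, ∃ y ∈ K, ∃ z ∈ K, r ≤ dist x y ∧ r ≤ dist z y ∧
      |inner ℝ (x - y) (z - y)| ≤ 4 * n * R * (1 / 2) ^ k := by
    intro k hk
    set w : ℝ := (1 / 2) ^ k with hw
    have hw0 : 0 < w := by positivity
    have hm : 0 < 2 ^ k := by positivity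
    have : Nonempty (Fin (2 ^ k)) := ⟨⟨0, hm⟩⟩
    have hmw : 1 / ((2 ^ k : ℕ) : ℝ) ≤ w := by rw [hw]; simp
    let Ω := Fin n → Fin n → Fin (2 ^ k)
    let Y1 : Ω → Set (EuclideanSpace ℝ (Fin n)) := fun A =>
      {y ∈ K | ∀ x ∈ K, (∀ j ∈ Sᶜ, |pj 1 S A j (x - y)| ≤ w) → dist x y < r}
    let Y2 : Ω → Set (EuclideanSpace ℝ (Fin n)) := fun A =>
      {y ∈ K | ∀ x ∈ K, (∀ j ∈ Sᶜᶜ, |pj (-1) Sᶜ (Function.swap A) j (x - y)| ≤ w) → dist x y < r}
    have h1 := hk1 k0 (le_max_left _ _) k hk Ω (Fin n) Sᶜ rfl (fun A => pj 1 S A)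
      (fun A j => pj_cont _ _ _ _) (fun A j => pj_sub _ _ _ _) Y1
      (fun A y hy j _ => (pj_bound abs_one S A j y).trans (by have := hR y hy.1; gcongr))
      (fun A x hx y hy h => hy.2 x hx.1 h)
      (fun ρ hρ hρ1 v hv => small_ball abs_one S (Finset.card_pos.1 (by omega)) hm w hw0 hmw
        ρ hρ hρ1 v hv)
    have h2 := hk2 k0 (le_max_right _ _) k hk Ω (Fin n) Sᶜᶜ rfl
      (fun A => pj (-1) Sᶜ (Function.swap A))
      (fun A j => pj_cont _ _ _ _) (fun A j => pj_sub _ _ _ _) Y2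
      (fun A y hy j _ => (pj_bound (by simp) Sᶜ _ j y).trans (by have := hR y hy.1; gcongr))
      (fun A x hx y hy h => hy.2 x hx.1 h)
      (fun ρ hρ hρ1 v hv => by
        have h3 := small_ball (σ := -1) (by simp) Sᶜ (Finset.card_pos.1 (by omega)) hm w hw0 hmw
          ρ hρ hρ1 v hv
        let e : Ω ≃ Ω := ⟨Function.swap, Function.swap, fun _ => rfl, fun _ => rfl⟩
        rw [← pr_equiv e] at h3
        exact h3)
    have h3 : ∃ A : Ω, μ.real (Y1 A) ^ 2 + μ.real (Y2 A) ^ 2 ≤ 1 / 5 := by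
      by_contra hc
      push Not at hc
      have h4 : ∑ _A : Ω, (1 / 5 : ℝ) < ∑ A : Ω, (μ.real (Y1 A) ^ 2 + μ.real (Y2 A) ^ 2) :=
        Finset.sum_lt_sum_of_nonempty Finset.univ_nonempty fun A _ => hc A
      rw [Finset.sum_add_distrib, Finset.sum_const, Finset.card_univ, nsmul_eq_mul] at h4
      linarith
    obtain ⟨A, hA⟩ := h3
    have h4 : ∃ y ∈ K, y ∉ Y1 A ∧ y ∉ Y2 A := by
      by_contra hc
      push Not at hc
      have h5 : K ⊆ Y1 A ∪ Y2 A := fun y hy => by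
        by_cases h : y ∈ Y1 A
        · exact Or.inl h
        · exact Or.inr (hc y hy h)
      have h6 := (measureReal_mono h5 (measure_ne_top μ _)).trans (measureReal_union_le _ _)
      rw [hμ1] at h6
      nlinarith [sq_nonneg (μ.real (Y1 A) - μ.real (Y2 A))]
    obtain ⟨y, hy, hy1, hy2⟩ := h4
    simp only [Y1, Y2, mem_ofPred_eq, hy, true_and] at hy1 hy2
    push Not at hy1 hy2
    obtain ⟨x, hx, hx1, hx2⟩ := hy1
    obtain ⟨z, hz, hz1, hz2⟩ := hy2
    refine ⟨x, hx, y, hy, z, hz, hx2, hz2, ?_⟩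
    rw [inner_identity S A]
    have hb : ∀ u ∈ K, ∀ i, |(u - y) i| ≤ 2 * R := fun u hu i =>
      (coord_le _ i).trans ((norm_sub_le _ _).trans (by have := hR u hu; have := hR y hy; linarith))
    have hsum : ∀ (T : Finset (Fin n)) (f : Fin n → ℝ), (∀ i ∈ T, |f i| ≤ 2 * R * w) →
        |∑ i ∈ T, f i| ≤ n * (2 * R * w) := by
      intro T f hf
      refine (Finset.abs_sum_le_sum_abs _ _).trans ((Finset.sum_le_sum hf).trans ?_)
      rw [Finset.sum_const, nsmul_eq_mul]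
      refine mul_le_mul_of_nonneg_right ?_ (by positivity)
      have := Finset.card_le_univ T
      rw [Fintype.card_fin] at this
      exact_mod_cast this
    have a1 := hsum S (fun i => (x - y) i * pj (-1) Sᶜ (Function.swap A) i (z - y)) fun i hi => by
      rw [abs_mul]
      exact mul_le_mul (hb x hx i) (hz1 i (by simpa using hi)) (abs_nonneg _) (by positivity)
    have a2 := hsum Sᶜ (fun j => (z - y) j * pj 1 S A j (x - y)) fun j hj => by
      rw [abs_mul]
      exact mul_le_mul (hb z hz j) (hx1 j hj) (abs_nonneg _) (by positivity)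
    refine (abs_add_le _ _).trans ?_
    linarith
  let P : Set (EuclideanSpace ℝ (Fin n) × EuclideanSpace ℝ (Fin n) × EuclideanSpace ℝ (Fin n)) :=
    (K ×ˢ K ×ˢ K) ∩ {p | r ≤ dist p.1 p.2.1 ∧ r ≤ dist p.2.2 p.2.1}
  have hP : IsCompact P := by
    refine (hK.prod (hK.prod hK)).inter_right ?_
    rw [ofPred_and]
    exact (isClosed_le continuous_const (by fun_prop)).inter
      (isClosed_le continuous_const (by fun_prop))
  have hPne : P.Nonempty := by
    obtain ⟨x, hx, y, hy, z, hz, h1, h2, -⟩ := step k0 le_rfl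
    exact ⟨(x, y, z), ⟨hx, hy, hz⟩, h1, h2⟩
  obtain ⟨⟨x, y, z⟩, ⟨⟨hx, hy, hz⟩, h1, h2⟩, hmin⟩ := hP.exists_isMinOn hPne
    (f := fun p => |inner ℝ (p.1 - p.2.1) (p.2.2 - p.2.1)|) (by fun_prop)
  refine ⟨x, hx, y, hy, z, hz, ?_, ?_, ?_⟩
  · rintro rfl; simp at h1; linarith
  · rintro rfl; simp at h2; linarith
  · by_contra hne
    have hpos : 0 < |inner ℝ (x - y) (z - y)| := abs_pos.2 hne
    have hn0 : (0 : ℝ) < n := by exact_mod_cast (by omega : 0 < n)
    obtain ⟨k, hk⟩ := exists_pow_lt_of_lt_one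
      (show 0 < |inner ℝ (x - y) (z - y)| / (4 * n * R) by positivity)
      (show (1 / 2 : ℝ) < 1 by norm_num)
    obtain ⟨x', hx', y', hy', z', hz', h1', h2', h3⟩ := step (max k k0) (le_max_right _ _)
    have h4 := hmin (show (x', y', z') ∈ P from ⟨⟨hx', hy', hz'⟩, h1', h2'⟩)
    simp only [mem_ofPred_eq] at h4
    have h5 : (1 / 2 : ℝ) ^ max k k0 ≤ (1 / 2) ^ k :=
      pow_le_pow_of_le_one (by norm_num) (by norm_num) (le_max_left _ _)
    rw [lt_div_iff₀' (by positivity)] at hk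
    have h6 : 4 * n * R * (1 / 2 : ℝ) ^ max k k0 ≤ 4 * n * R * (1 / 2) ^ k := by gcongr
    linarith

end Pool.Agent.H884Z.Ang
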