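import Pool.Agent.H884Z.SR.Prob

set_option autoImplicit false
set_option linter.unusedSectionVars false

namespace Pool.Agent.H884Z.Ang

open MeasureTheory Set Metric Pool.Agent.H884Z.SR

lemma pr_le_one {Ω : Type} [Fintype Ω] (p : Ω → Prop) : pr p ≤ 1 := by
  unfold pr
  refine div_le_one_of_le₀ ?_ (Nat.cast_nonneg _)
  exact_mod_cast Finset.card_le_univ _

lemma pr_nonneg {Ω : Type} [Fintype Ω] (p : Ω → Prop) : 0 ≤ pr p := by
  unfold pr; positivity

/-- averaging of measures over a finite parameter set -/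
lemma sum_measure_le {Ω X : Type} [Fintype Ω] [Nonempty Ω] [MeasurableSpace X] (ν : Measure X)
    [IsFiniteMeasure ν] (T : Ω → Set X) (hT : ∀ ω, MeasurableSet (T ω)) (A : Set X)
    (hA : MeasurableSet A) (c : ℝ) (hc : 0 ≤ c) (h : ∀ x ∈ A, pr (fun ω => x ∈ T ω) ≤ c) :
    ∑ ω, ν.real (T ω ∩ A) ≤ Fintype.card Ω * c * ν.real A := by
  classical
  have h1 : ∀ ω, ν.real (T ω ∩ A) = ∫ x, (T ω ∩ A).indicator (fun _ => (1 : ℝ)) x ∂ν := by
    intro ω
    rw [integral_indicator ((hT ω).inter hA)]; simp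
  have h2 : Fintype.card Ω * c * ν.real A =
      ∫ x, A.indicator (fun _ => (Fintype.card Ω * c : ℝ)) x ∂ν := by
    rw [integral_indicator hA]; simp [mul_comm]
  simp only [h1]
  rw [h2, ← integral_finsetSum _ fun ω _ =>
    (integrable_const (1 : ℝ)).indicator ((hT ω).inter hA)]
  refine integral_mono (integrable_finsetSum _ fun ω _ =>
    (integrable_const (1 : ℝ)).indicator ((hT ω).inter hA))
    ((integrable_const _).indicator hA) fun x => ?_
  by_cases hx : x ∈ A
  · have h3 := h x hx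
    unfold pr at h3
    have h4 : (0 : ℝ) < Fintype.card Ω := by exact_mod_cast Fintype.card_pos
    rw [div_le_iff₀ h4] at h3
    simp only [indicator_of_mem hx]
    have h5 : ∑ ω, (T ω ∩ A).indicator (fun _ => (1 : ℝ)) x = ((fs fun ω => x ∈ T ω).card : ℝ) := by
      rw [Finset.card_eq_sum_ones]
      push_cast
      rw [← Finset.sum_subset (Finset.subset_univ (fs fun ω => x ∈ T ω))]
      · refine Finset.sum_congr rfl fun ω hω => ?_
        have h6 : x ∈ T ω := (mem_fs (p := fun ω => x ∈ T ω)).1 hω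
        exact indicator_of_mem (mem_inter h6 hx) _
      · intro ω _ hω
        exact indicator_of_notMem (fun h => hω (mem_fs.2 h.1)) _
    rw [h5]; linarith
  · simp only [indicator_of_notMem hx]
    refine le_of_eq (Finset.sum_eq_zero fun ω _ => indicator_of_notMem (fun h => hx h.2) _)

section R

variable {X : Type} [NormedAddCommGroup X] [MeasurableSpace X] [BorelSpace X]
  [SecondCountableTopology X]

lemma near_diag (μ : Measure X) [IsProbabilityMeasure μ] (C s : ℝ) (hC : 0 < C)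
    (hF : ∀ (x : X) (r : ℝ), 0 < r → μ (closedBall x r) ≤ ENNReal.ofReal (C * r ^ s))
    (ρ : ℝ) (hρ : 0 < ρ) : (μ.prod μ).real {p : X × X | dist p.1 p.2 < ρ} ≤ C * ρ ^ s := by
  have hm : MeasurableSet {p : X × X | dist p.1 p.2 < ρ} :=
    (isOpen_lt (by fun_prop) continuous_const).measurableSet
  refine ENNReal.toReal_le_of_le_ofReal (by positivity) ?_
  rw [Measure.prod_apply hm]
  calc _ ≤ ∫⁻ _ : X, ENNReal.ofReal (C * ρ ^ s) ∂μ := by
        refine lintegral_mono fun x => le_trans (measure_mono ?_) (hF x ρ hρ)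
        intro y hy
        simp only [mem_preimage, mem_ofPred_eq] at hy
        rw [mem_closedBall, dist_comm]; exact hy.le
    _ = _ := by simp

/-- Cauchy-Schwarz over cells -/
lemma cells_cs {ι : Type} [Fintype ι] [DecidableEq ι] (μ : Measure X) [IsProbabilityMeasure μ]
    (J : Finset ι) (π : ι → X → ℝ) (hπ : ∀ j, Continuous (π j)) (L w : ℝ) (hL : 0 ≤ L)
    (hw : 0 < w) (hw1 : w ≤ 1) (Y : Set X) (hY : ∀ y ∈ Y, ∀ j ∈ J, |π j y| ≤ L)
    (G : Set (X × X))
    (hG : ∀ x ∈ Y, ∀ y ∈ Y, (∀ j ∈ J, |π j x - π j y| ≤ w) → (x, y) ∈ G) :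
    μ.real Y ^ 2 ≤ ((2 * L + 3) / w) ^ J.card * (μ.prod μ).real G := by
  classical
  let N : ℕ := ⌈L / w⌉₊
  let φ : X → ι → ℤ := fun x j => if j ∈ J then ⌊π j x / w⌋ else 0
  let Φ : Finset (ι → ℤ) := Fintype.piFinset fun j => if j ∈ J then Finset.Icc (-(N : ℤ)) N else {0}
  have hφ : Measurable φ := by
    refine measurable_pi_lambda _ fun j => ?_
    simp only [φ]
    split_ifs
    · exact ((hπ j).measurable.div_const w).floor
    · exact measurable_const
  have hΦ : (Φ.card : ℝ) ≤ ((2 * L + 3) / w) ^ J.card := by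
    rw [Fintype.card_piFinset]
    have : ∀ j, (if j ∈ J then Finset.Icc (-(N : ℤ)) N else {0}).card =
        if j ∈ J then 2 * N + 1 else 1 := by
      intro j; split_ifs
      · simp only [Int.card_Icc]; omega
      · simp
    simp only [this]
    rw [Finset.prod_ite, Finset.prod_const, Finset.prod_const, one_pow, mul_one]
    have h2 : (Finset.univ.filter fun j => j ∈ J) = J := by ext; simp
    rw [h2]
    push_cast
    refine pow_le_pow_left₀ (by positivity) ?_ _
    have h3 : (N : ℝ) < L / w + 1 := Nat.ceil_lt_add_one (by positivity)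
    rw [le_div_iff₀ hw]
    have h4 : (N : ℝ) * w ≤ L + w := by
      have := mul_le_mul_of_nonneg_right h3.le hw.le
      rwa [add_mul, div_mul_cancel₀ _ hw.ne', one_mul] at this
    nlinarith
  have hcov : Y ⊆ ⋃ c ∈ Φ, Y ∩ φ ⁻¹' {c} := by
    intro y hy
    simp only [mem_iUnion]
    refine ⟨φ y, ?_, hy, rfl⟩
    rw [Fintype.mem_piFinset]
    intro j
    simp only [φ]
    split_ifs with hj
    · have h1 := hY y hy j hj
      have h2 : L / w ≤ N := Nat.le_ceil _
      have h3 : |π j y / w| ≤ N := by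
        rw [abs_div, abs_of_pos hw]
        exact (div_le_div_of_nonneg_right h1 hw.le).trans h2
      rw [abs_le] at h3
      rw [Finset.mem_Icc]
      constructor
      · rw [Int.le_floor]; push_cast; exact h3.1
      · have := (Int.floor_le (π j y / w)).trans h3.2
        exact_mod_cast this
    · simp
  have h1 : μ.real Y ≤ ∑ c ∈ Φ, μ.real (Y ∩ φ ⁻¹' {c}) :=
    (measureReal_mono hcov (measure_ne_top _ _)).trans (measureReal_biUnion_finset_le _ _)
  have h2 : (∑ c ∈ Φ, μ.real (Y ∩ φ ⁻¹' {c})) ^ 2 ≤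
      Φ.card * ∑ c ∈ Φ, μ.real (Y ∩ φ ⁻¹' {c}) ^ 2 := sq_sum_le_card_mul_sum_sq
  let G' := toMeasurable (μ.prod μ) G
  have hG' : MeasurableSet G' := measurableSet_toMeasurable _ _
  have hφ1 : ∀ c, MeasurableSet ((fun p : X × X => φ p.1) ⁻¹' {c}) := fun c =>
    (hφ.comp measurable_fst) (measurableSet_singleton c)
  have h3 : ∀ c, μ.real (Y ∩ φ ⁻¹' {c}) ^ 2 ≤
      ((μ.prod μ).restrict G').real ((fun p : X × X => φ p.1) ⁻¹' {c}) := by
    intro c
    rw [sq, ← measureReal_prod_prod, measureReal_restrict_apply (hφ1 c)]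
    refine measureReal_mono ?_
    rintro ⟨x, y⟩ ⟨⟨hx, hxc⟩, hy, hyc⟩
    refine ⟨hxc, subset_toMeasurable _ _ (hG x hx y hy fun j hj => ?_)⟩
    have h4 : φ x j = φ y j := by
      rw [show φ x = c from hxc, show φ y = c from hyc]
    simp only [φ, if_pos hj] at h4
    have h5 := Int.abs_sub_lt_one_of_floor_eq_floor h4
    rw [← sub_div, abs_div, abs_of_pos hw, div_lt_one hw] at h5
    exact h5.le
  have h4 : ∑ c ∈ Φ, ((μ.prod μ).restrict G').real ((fun p : X × X => φ p.1) ⁻¹' {c}) ≤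
      (μ.prod μ).real G := by
    rw [sum_measureReal_preimage_singleton _ (fun c _ => hφ1 c)]
    calc _ ≤ ((μ.prod μ).restrict G').real univ := measureReal_mono (subset_univ _)
      _ = (μ.prod μ).real G := by
        rw [measureReal_restrict_apply MeasurableSet.univ, univ_inter]
        simp [G', Measure.real]
  calc μ.real Y ^ 2 ≤ (∑ c ∈ Φ, μ.real (Y ∩ φ ⁻¹' {c})) ^ 2 :=
        pow_le_pow_left₀ measureReal_nonneg h1 2
    _ ≤ Φ.card * ∑ c ∈ Φ, μ.real (Y ∩ φ ⁻¹' {c}) ^ 2 := h2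
    _ ≤ _ := mul_le_mul hΦ ((Finset.sum_le_sum fun c _ => h3 c).trans h4)
        (Finset.sum_nonneg fun _ _ => sq_nonneg _) (by positivity)

/-- Lemma R: on average over the parameter, few points have no far partner in the tube. -/
theorem lemmaR (μ : Measure X) [IsProbabilityMeasure μ] (C s : ℝ) (hC : 0 < C)
    (hF : ∀ (x : X) (r : ℝ), 0 < r → μ (closedBall x r) ≤ ENNReal.ofReal (C * r ^ s))
    (d : ℕ) (hd : (d : ℝ) < s) (L c ε : ℝ) (hL : 0 ≤ L) (hc : 0 ≤ c) (hε : 0 < ε) :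
    ∃ k1 : ℕ, ∀ k0 ≥ k1, ∀ k ≥ k0, ∀ (Ω ι : Type) [Fintype Ω] [Nonempty Ω] [Fintype ι]
      [DecidableEq ι] (J : Finset ι), J.card = d → ∀ (π : Ω → ι → X → ℝ),
      (∀ ω j, Continuous (π ω j)) → (∀ ω j x y, π ω j (x - y) = π ω j x - π ω j y) →
      ∀ Y : Ω → Set X, (∀ ω, ∀ y ∈ Y ω, ∀ j ∈ J, |π ω j y| ≤ L) →
      (∀ ω, ∀ x ∈ Y ω, ∀ y ∈ Y ω, (∀ j ∈ J, |π ω j (x - y)| ≤ (1 / 2) ^ k) →
        dist x y < (1 / 2) ^ k0) →
      (∀ ρ : ℝ, 0 < ρ → ρ ≤ 1 → ∀ v : X, ρ ≤ ‖v‖ →
        pr (fun ω => ∀ j ∈ J, |π ω j v| ≤ (1 / 2) ^ k) ≤ (c * (1 / 2) ^ k / ρ) ^ d) →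
      ∑ ω, μ.real (Y ω) ^ 2 ≤ Fintype.card Ω * ε := by
  set q : ℝ := 2 ^ d * (1 / 2) ^ s with hq
  have hq0 : 0 < q := by positivity
  have hq1 : q < 1 := by
    have h1 : (1 / 2 : ℝ) ^ s < (1 / 2) ^ (d : ℝ) :=
      Real.rpow_lt_rpow_of_exponent_gt (by norm_num) (by norm_num) hd
    rw [Real.rpow_natCast] at h1
    calc q < 2 ^ d * (1 / 2) ^ d := mul_lt_mul_of_pos_left h1 (by positivity)
      _ = 1 := by rw [← mul_pow]; norm_num
  set B : ℝ := C + (2 * c) ^ d * C / (1 - q) with hB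
  have hB1 : C ≤ B := by
    have : 0 ≤ (2 * c) ^ d * C / (1 - q) := div_nonneg (by positivity) (by linarith)
    linarith
  have hB2 : (2 * c) ^ d * C ≤ B * (1 - q) := by
    rw [hB, add_mul, div_mul_cancel₀ _ (by linarith)]
    have : 0 ≤ C * (1 - q) := mul_nonneg hC.le (by linarith)
    linarith
  have hB0 : 0 < B := hC.trans_le hB1
  obtain ⟨k1, hk1⟩ := exists_pow_lt_of_lt_one
    (show 0 < ε / ((2 * L + 3) ^ d * B) by positivity) hq1
  refine ⟨k1, fun k0 hk0 k hk Ω ι _ _ _ _ J hJ π hπ hlin Y hY hYY hsb => ?_⟩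
  set w : ℝ := (1 / 2) ^ k with hw
  have hw0 : 0 < w := by positivity
  have hw1 : w ≤ 1 := pow_le_one₀ (by norm_num) (by norm_num)
  let T : Ω → Set (X × X) := fun ω => {p | ∀ j ∈ J, |π ω j (p.1 - p.2)| ≤ w}
  have hT : ∀ ω, MeasurableSet (T ω) := by
    intro ω
    have : T ω = ⋂ j ∈ J, {p : X × X | |π ω j (p.1 - p.2)| ≤ w} := by ext; simp [T]
    rw [this]
    refine (isClosed_biInter fun j _ => isClosed_le ?_ continuous_const).measurableSet
    have := hπ ω j
    fun_prop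
  let D : ℕ → Set (X × X) := fun i => {p | dist p.1 p.2 < (1 / 2) ^ i}
  have hD : ∀ i, MeasurableSet (D i) := fun i =>
    (isOpen_lt (by fun_prop) continuous_const).measurableSet
  have hDm : ∀ i, (μ.prod μ).real (D i) ≤ C * ((1 / 2) ^ s) ^ i := by
    intro i
    refine (near_diag μ C s hC hF _ (by positivity)).trans (le_of_eq ?_)
    rw [← Real.rpow_natCast, ← Real.rpow_natCast, ← Real.rpow_mul (by norm_num),
      ← Real.rpow_mul (by norm_num), mul_comm s]
  have hcard : (0 : ℝ) ≤ Fintype.card Ω := Nat.cast_nonneg _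
  have key : ∀ t i, i + t = k →
      ∑ ω, (μ.prod μ).real (T ω ∩ D i) ≤ Fintype.card Ω * (B * w ^ d * q ^ i) := by
    intro t
    induction t with
    | zero =>
      intro i hi
      rw [add_zero] at hi
      subst hi
      have h1 := sum_measure_le (μ.prod μ) T hT (D i) (hD i) 1 zero_le_one fun _ _ => pr_le_one _
      refine h1.trans ?_
      rw [mul_one]
      refine mul_le_mul_of_nonneg_left ((hDm i).trans ?_) hcard
      have : w ^ d * q ^ i = ((1 / 2) ^ s) ^ i := by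
        rw [hq, hw, mul_pow, ← mul_assoc, ← pow_mul, ← pow_mul, mul_comm i d, ← mul_pow]
        norm_num
      rw [mul_assoc, this]
      gcongr
    | succ t ih =>
      intro i hi
      have h0 := ih (i + 1) (by omega)
      have h1 := sum_measure_le (μ.prod μ) T hT (D i \ D (i + 1)) ((hD i).diff (hD _))
        ((c * w / (1 / 2) ^ (i + 1)) ^ d) (by positivity) fun p hp => by
          refine hsb _ (by positivity) (pow_le_one₀ (by norm_num) (by norm_num)) (p.1 - p.2) ?_
          rw [← dist_eq_norm]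
          exact not_lt.1 hp.2
      have h2 : ∑ ω, (μ.prod μ).real (T ω ∩ D i) ≤ ∑ ω, ((μ.prod μ).real (T ω ∩ D (i + 1)) +
          (μ.prod μ).real (T ω ∩ (D i \ D (i + 1)))) := by
        refine Finset.sum_le_sum fun ω _ => le_trans (measureReal_mono ?_) (measureReal_union_le _ _)
        rintro p ⟨h3, h4⟩
        by_cases h5 : p ∈ D (i + 1)
        · exact Or.inl ⟨h3, h5⟩
        · exact Or.inr ⟨h3, h4, h5⟩
      rw [Finset.sum_add_distrib] at h2
      have h3 : (μ.prod μ).real (D i \ D (i + 1)) ≤ C * ((1 / 2) ^ s) ^ i :=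
        (measureReal_mono sdiff_subset).trans (hDm i)
      have h4 : (c * w / (1 / 2) ^ (i + 1)) ^ d * (C * ((1 / 2) ^ s) ^ i) =
          (2 * c) ^ d * C * (w ^ d * q ^ i) := by
        have : c * w / (1 / 2) ^ (i + 1) = 2 * c * w * 2 ^ i := by
          rw [one_div, inv_pow, div_inv_eq_mul]; ring
        rw [this, hq, mul_pow, mul_pow, mul_pow, mul_pow, ← pow_mul, ← pow_mul, mul_comm i d]
        ring
      have h5 : Fintype.card Ω * (c * w / (1 / 2) ^ (i + 1)) ^ d *
          (μ.prod μ).real (D i \ D (i + 1)) ≤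
          Fintype.card Ω * (B * (1 - q) * (w ^ d * q ^ i)) := by
        rw [mul_assoc]
        refine mul_le_mul_of_nonneg_left ?_ hcard
        refine (mul_le_mul_of_nonneg_left h3 (by positivity)).trans ?_
        rw [h4]
        exact mul_le_mul_of_nonneg_right hB2 (by positivity)
      calc _ ≤ _ := h2
        _ ≤ Fintype.card Ω * (B * w ^ d * q ^ (i + 1)) +
            Fintype.card Ω * (B * (1 - q) * (w ^ d * q ^ i)) := add_le_add h0 (h1.trans h5)
        _ = _ := by ring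
  have h1 := key (k - k0) k0 (by omega)
  have h2 : ∀ ω, μ.real (Y ω) ^ 2 ≤ ((2 * L + 3) / w) ^ d * (μ.prod μ).real (T ω ∩ D k0) := by
    intro ω
    rw [← hJ]
    refine cells_cs μ J (π ω) (hπ ω) L w hL hw0 hw1 (Y ω) (hY ω) _ fun x hx y hy h => ?_
    have h' : ∀ j ∈ J, |π ω j (x - y)| ≤ w := fun j hj => by rw [hlin]; exact h j hj
    exact ⟨h', hYY ω x hx y hy h'⟩
  have h3 : q ^ k0 ≤ ε / ((2 * L + 3) ^ d * B) :=
    (pow_le_pow_of_le_one hq0.le hq1.le hk0).trans hk1.le
  calc _ ≤ ∑ ω, ((2 * L + 3) / w) ^ d * (μ.prod μ).real (T ω ∩ D k0) :=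
        Finset.sum_le_sum fun ω _ => h2 ω
    _ = ((2 * L + 3) / w) ^ d * ∑ ω, (μ.prod μ).real (T ω ∩ D k0) := by rw [Finset.mul_sum]
    _ ≤ ((2 * L + 3) / w) ^ d * (Fintype.card Ω * (B * w ^ d * q ^ k0)) :=
        mul_le_mul_of_nonneg_left h1 (by positivity)
    _ = Fintype.card Ω * (((2 * L + 3) ^ d * B) * q ^ k0) := by
        rw [div_pow]; field_simp
    _ ≤ _ := by
        refine mul_le_mul_of_nonneg_left ?_ hcard
        rwa [le_div_iff₀' (by positivity)] at h3

end R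

end Pool.Agent.H884Z.Ang
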